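import Pool.Agent.Baz16.Final

/-!
# The extreme points of the Bazilevic class `B(1)`

`B(1)` is the class of all `f(z) = ∫_0^z p(t) s(t) t⁻¹ dt`, `p` analytic with positive real part
and `p(0) = 1`, `s` starlike. Its extreme points are exactly the functions `f` with `f(0) = 0` and
`f'(z) = (1 + x z) / ((1 - x z) (1 - y z)²)`, `|x| = |y| = 1`, `Re (x ȳ) ≥ 0`.

Write `f' = p S_ν`, `S_ν(z) = exp (- 2 ∫ log (1 - e^{-it} z) dν(t))`, `ν` a probability measure.
* If `p` is not a Möbius function, `p` splits (Holland). If `ν` has two atoms, `S_ν` splits. If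
  `p = (1+z)/(1-z)` and `ν` has a diffuse part, then `f'` splits as `ε f' g + (1-ε) f' (1 - ε g)/(1-ε)`,
  where `g` moves the mass of `ν` on a short arc (chosen dense, or with small logarithmic
  potential) to another short arc, and the second factor is corrected by means of the freedom in
  `p`. If `Re (x ȳ) < 0` there is an explicit identity.
* If `Re (x ȳ) ≥ 0`, `f' = λ G + (1-λ) H`, one studies the arguments of `G/f'`, `H/f'` on small
  arcs around `ȳ` inside the disc.
-/

namespace Pool.Agent.Results.MP_d8ceb9_an.AlphaOne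

open Baz16 Complex Metric
open scoped ComplexConjugate

theorem result (f : ℂ → ℂ) :
    IsExtremeB1 f ↔ DifferentiableOn ℂ f (ball 0 1) ∧ f 0 = 0 ∧
      ∃ x y : ℂ, ‖x‖ = 1 ∧ ‖y‖ = 1 ∧ 0 ≤ (x * conj y).re ∧
        ∀ z ∈ ball (0 : ℂ) 1, deriv f z = (1 + x * z) / ((1 - x * z) * (1 - y * z) ^ 2) :=
  Baz16.main f

end Pool.Agent.Results.MP_d8ceb9_an.AlphaOne
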